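import Pool.Agent.Q149.Alt2

set_option autoImplicit false

/-!
MP_719c39_co, questions Q1 and Q2: the deficiency-one hull condition implies the existence of an
alternating ordering of points and directed lines.
-/

namespace Pool.Agent.Results.MP_719c39_co.AlternatingOrdering

/-- The Euclidean plane. -/
abbrev Plane := EuclideanSpace ℝ (Fin 2)

/-- A directed line: the line through `point` with direction `dir`. -/
structure DirectedLine where
  point : Plane
  dir : Plane
  dir_ne : dir ≠ 0

namespace DirectedLine

/-- The determinant of the direction and of `x - point`; it is positive exactly for the points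
on the left of the line. -/
def side (l : DirectedLine) (x : Plane) : ℝ :=
  l.dir 0 * (x 1 - l.point 1) - l.dir 1 * (x 0 - l.point 0)

/-- The points of the line. -/
def carrier (l : DirectedLine) : Set Plane := {x | l.side x = 0}

/-- The open left half-plane. -/
def left (l : DirectedLine) : Set Plane := {x | 0 < l.side x}

/-- The open right half-plane. -/
def right (l : DirectedLine) : Set Plane := {x | l.side x < 0}

/-- The line separates the two points. -/
def Separates (l : DirectedLine) (x y : Plane) : Prop :=
  (x ∈ l.left ∧ y ∈ l.right) ∨ (x ∈ l.right ∧ y ∈ l.left)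

lemma side_combo (l : DirectedLine) (x y : Plane) (s t : ℝ) (h : s + t = 1) :
    l.side (s • x + t • y) = s * l.side x + t * l.side y := by
  have hs : s = 1 - t := by linarith
  subst hs
  simp only [side, PiLp.add_apply, PiLp.smul_apply, smul_eq_mul]
  ring

lemma left_convex (l : DirectedLine) : Convex ℝ l.left := by
  intro x hx y hy s t hs ht hst
  change 0 < l.side (s • x + t • y)
  change 0 < l.side x at hx
  change 0 < l.side y at hy
  rw [side_combo l x y s t hst]
  rcases hs.eq_or_lt with h0 | h0
  · have : t = 1 := by linarith
    rw [← h0, this]; linarith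
  · have := mul_pos h0 hx
    have := mul_nonneg ht hy.le
    linarith

lemma right_convex (l : DirectedLine) : Convex ℝ l.right := by
  intro x hx y hy s t hs ht hst
  change l.side (s • x + t • y) < 0
  change l.side x < 0 at hx
  change l.side y < 0 at hy
  rw [side_combo l x y s t hst]
  rcases hs.eq_or_lt with h0 | h0
  · have : t = 1 := by linarith
    rw [← h0, this]; linarith
  · have := mul_neg_of_pos_of_neg h0 hx
    have := mul_nonpos_of_nonneg_of_nonpos ht hy.le
    linarith

end DirectedLine

/-- General position: no point lies on a line. -/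
def GeneralPosition {n : ℕ} (p : Fin n → Plane) (l : Fin n → DirectedLine) : Prop :=
  ∀ i j, p i ∉ (l j).carrier

/-- The deficiency-one hull condition: for every set `X` of `k` of the points, at least `k - 1` of
the lines meet the convex hull of `X`. -/
def HullCondition {n : ℕ} (p : Fin n → Plane) (l : Fin n → DirectedLine) : Prop :=
  ∀ X : Finset (Fin n),
    X.card - 1 ≤ {j | ((l j).carrier ∩ convexHull ℝ (p '' (X : Set (Fin n)))).Nonempty}.ncard

/-- **Alternating orderings exist.** Let `p` be `n` points and `l` be `n` directed lines in the
plane in general position which satisfy the deficiency-one hull condition. Then the points and the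
lines can be ordered as `p_1, l_1, …, p_n, l_n` such that for all `i < n` the point `p_i` is on the
left and the point `p_{i+1}` is on the right of `l_i`; in particular `l_i` separates them. -/
theorem result (n : ℕ) (p : Fin n → Plane) (l : Fin n → DirectedLine)
    (hgen : GeneralPosition p l) (hhull : HullCondition p l) :
    (∃ σ τ : Equiv.Perm (Fin n), ∀ (i : ℕ) (hi : i + 1 < n),
      (l (τ ⟨i, by omega⟩)).Separates (p (σ ⟨i, by omega⟩)) (p (σ ⟨i + 1, hi⟩))) ∧
    ∃ σ τ : Equiv.Perm (Fin n), ∀ (i : ℕ) (hi : i + 1 < n),
      p (σ ⟨i, by omega⟩) ∈ (l (τ ⟨i, by omega⟩)).left ∧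
      p (σ ⟨i + 1, hi⟩) ∈ (l (τ ⟨i, by omega⟩)).right := by
  classical
  set B : Fin n → Fin n → Bool := fun j i => decide (p i ∈ (l j).left) with hB
  have hleft : ∀ i j, B j i = true ↔ p i ∈ (l j).left := by
    intro i j
    rw [hB]
    exact decide_eq_true_iff
  have hright : ∀ i j, B j i = false ↔ p i ∈ (l j).right := by
    intro i j
    rw [hB]
    simp only [decide_eq_false_iff_not]
    have h1 : (l j).side (p i) ≠ 0 := hgen i j
    change ¬ 0 < (l j).side (p i) ↔ (l j).side (p i) < 0
    constructor
    · intro h
      exact lt_of_le_of_ne (not_lt.1 h) h1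
    · intro h
      exact not_lt.2 h.le
  have hcond : ∀ X : Finset (Fin n), X.card ≤ (Q149.Alt.splits B X).card + 1 := by
    intro X
    have h1 := hhull X
    have h2 : {j | ((l j).carrier ∩ convexHull ℝ (p '' (X : Set (Fin n)))).Nonempty}.ncard ≤
        (Q149.Alt.splits B X).card := by
      rw [← Set.ncard_coe_finset]
      refine Set.ncard_le_ncard ?_ (Finset.finite_toSet _)
      rintro j ⟨x, hx, hxX⟩
      rw [Finset.mem_coe, Q149.Alt.mem_splits]
      have hx0 : (l j).side x = 0 := hx
      constructor
      · by_contra hc
        push Not at hc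
        have hsub : p '' (X : Set (Fin n)) ⊆ (l j).right := by
          rintro _ ⟨i, hi, rfl⟩
          rw [← hright i j]
          simpa using hc i hi
        have h3 := convexHull_min hsub (l j).right_convex hxX
        change (l j).side x < 0 at h3
        linarith
      · by_contra hc
        push Not at hc
        have hsub : p '' (X : Set (Fin n)) ⊆ (l j).left := by
          rintro _ ⟨i, hi, rfl⟩
          rw [← hleft i j]
          simpa using hc i hi
        have h3 := convexHull_min hsub (l j).left_convex hxX
        change 0 < (l j).side x at h3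
        linarith
    omega
  obtain ⟨σ, τ, h⟩ := Q149.Alt.alternating B hcond
  have key : ∀ (i : ℕ) (hi : i + 1 < n),
      p (σ ⟨i, by omega⟩) ∈ (l (τ ⟨i, by omega⟩)).left ∧
      p (σ ⟨i + 1, hi⟩) ∈ (l (τ ⟨i, by omega⟩)).right := fun i hi =>
    ⟨(hleft _ _).1 (h i hi).1, (hright _ _).1 (h i hi).2⟩
  exact ⟨⟨σ, τ, fun i hi => Or.inl (key i hi)⟩, σ, τ, key⟩

end Pool.Agent.Results.MP_719c39_co.AlternatingOrdering
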